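import Mathlib
import Pool.Agent.Q69.UDend
import Pool.Agent.Q69.SeqUM
import Pool.Agent.Q69.Morse
import Pool.Agent.Q69.Freq

/-!
# MP_5bdc9f_an: an uncountable DC3 set without Li-Yorke pairs on a dendrite
-/

set_option autoImplicit false
open Filter Topology Set

namespace Pool.Agent.Results.MP_5bdc9f_an.NoLYPair

open Q69UDend

section defs

variable {X : Type} [MetricSpace X]

/-- Li-Yorke pairs -/
def IsLYPair (f : X → X) (x y : X) : Prop :=
  x ≠ y ∧ liminf (fun k : ℕ => dist (f^[k] x) (f^[k] y)) atTop = 0 ∧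
    0 < limsup (fun k : ℕ => dist (f^[k] x) (f^[k] y)) atTop

open Classical in
/-- `#{0 ≤ k ≤ n : d(f^k x, f^k y) < δ}` -/
noncomputable def cnt (f : X → X) (x y : X) (δ : ℝ) (n : ℕ) : ℕ :=
  ((Finset.range (n + 1)).filter fun k => dist (f^[k] x) (f^[k] y) < δ).card

/-- `Φ_{xy}(δ)` -/
noncomputable def Phi (f : X → X) (x y : X) (δ : ℝ) : ℝ :=
  liminf (fun n : ℕ => (cnt f x y δ n : ℝ) / n) atTop

/-- `Φ*_{xy}(δ)` -/
noncomputable def PhiStar (f : X → X) (x y : X) (δ : ℝ) : ℝ :=
  limsup (fun n : ℕ => (cnt f x y δ n : ℝ) / n) atTop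

/-- DC3 pairs -/
def IsDC3Pair (f : X → X) (x y : X) : Prop :=
  x ≠ y ∧ ∃ a b : ℝ, 0 ≤ a ∧ a < b ∧ b ≤ Metric.diam (univ : Set X) ∧
    ∀ δ, a < δ → δ < b → Phi f x y δ < PhiStar f x y δ

end defs

open Q69Dens Q69Morse Q69Seq Q69Freq

/-- the space: compatible residues and sequences following the rule of the cocycle -/
def Y : Set (ℕ → ℕ × Bool) := {w | (∀ k, (w k).1 < N k) ∧ (∀ k, (w (k + 1)).1 % N k = (w k).1) ∧
  ∀ i K, ¬ N K ∣ (w K).1 + i + 1 →
    xor (w i).2 (w (i + 1)).2 = xor (s K ((w K).1 + i)) (s K ((w K).1 + i + 1))}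

lemma Y_closed : IsClosed Y := by
  have hc1 : ∀ k, Continuous fun w : ℕ → ℕ × Bool => (w k).1 := fun k =>
    continuous_fst.comp (continuous_apply k)
  have hc2 : ∀ k, Continuous fun w : ℕ → ℕ × Bool => (w k).2 := fun k =>
    continuous_snd.comp (continuous_apply k)
  have hY : Y = (⋂ k, {w : ℕ → ℕ × Bool | (w k).1 < N k}) ∩
      ((⋂ k, {w : ℕ → ℕ × Bool | (w (k + 1)).1 % N k = (w k).1}) ∩
      (⋂ i, ⋂ K, {w : ℕ → ℕ × Bool | ¬ N K ∣ (w K).1 + i + 1 →
        xor (w i).2 (w (i + 1)).2 = xor (s K ((w K).1 + i)) (s K ((w K).1 + i + 1))})) := by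
    ext w
    simp only [Y, mem_setOf_eq, mem_inter_iff, mem_iInter]
  rw [hY]
  refine IsClosed.inter (isClosed_iInter fun k => ?_) (IsClosed.inter
    (isClosed_iInter fun k => ?_) (isClosed_iInter fun i => isClosed_iInter fun K => ?_))
  · exact (isClosed_discrete {a : ℕ | a < N k}).preimage (hc1 k)
  · exact (isClosed_discrete {p : ℕ × ℕ | p.1 % N k = p.2}).preimage
      ((hc1 (k + 1)).prodMk (hc1 k))
  · exact (isClosed_discrete {p : (ℕ × Bool) × Bool | ¬ N K ∣ p.1.1 + i + 1 →
      xor p.1.2 p.2 = xor (s K (p.1.1 + i)) (s K (p.1.1 + i + 1))}).preimage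
      (((hc1 K).prodMk (hc2 i)).prodMk (hc2 (i + 1)))

lemma Y_compact : IsCompact Y := by
  have h : IsCompact (univ.pi fun k => ({p : ℕ × Bool | p.1 < N k} : Set (ℕ × Bool))) := by
    apply isCompact_univ_pi
    intro k
    apply Set.Finite.isCompact
    refine ((Set.finite_lt_nat (N k)).prod (Set.finite_univ (α := Bool))).subset ?_
    intro p hp
    exact ⟨hp, mem_univ _⟩
  exact h.of_isClosed_subset Y_closed fun w hw k _ => hw.1 k

/-- the map -/
def G (w : ℕ → ℕ × Bool) : ℕ → ℕ × Bool := fun k => (((w k).1 + 1) % N k, (w (k + 1)).2)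

lemma G_mem {w : ℕ → ℕ × Bool} (hw : w ∈ Y) : G w ∈ Y := by
  obtain ⟨h1, h2, h3⟩ := hw
  refine ⟨fun k => Nat.mod_lt _ (N_pos k), fun k => ?_, fun i K h => ?_⟩
  · simp only [G]
    rw [Nat.mod_mod_of_dvd _ (N_dvd (Nat.le_succ k)), ← h2 k]
    simp [Nat.add_mod]
  · simp only [G] at h ⊢
    have e1 : ((w K).1 + 1) % N K + i + 1 ≡ (w K).1 + (i + 1) + 1 [MOD N K] := by
      have : ((w K).1 + 1) % N K ≡ (w K).1 + 1 [MOD N K] := Nat.mod_modEq _ _
      have h' := (this.add_right i).add_right 1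
      rw [show (w K).1 + (i + 1) + 1 = (w K).1 + 1 + i + 1 by ring]
      exact h'
    have e2 : ((w K).1 + 1) % N K + i ≡ (w K).1 + (i + 1) [MOD N K] := by
      have : ((w K).1 + 1) % N K ≡ (w K).1 + 1 [MOD N K] := Nat.mod_modEq _ _
      have h' := this.add_right i
      rw [show (w K).1 + (i + 1) = (w K).1 + 1 + i by ring]
      exact h'
    have h' : ¬ N K ∣ (w K).1 + (i + 1) + 1 := by
      intro hd
      exact h ((e1.dvd_iff dvd_rfl).2 hd)
    have := h3 (i + 1) K h'
    rw [s_mod (K := K) e2, s_mod (K := K) e1]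
    exact this

lemma G_iter1 (k i : ℕ) {w : ℕ → ℕ × Bool} (hw : w ∈ Y) :
    (G^[k] w i).1 = ((w i).1 + k) % N i := by
  induction k with
  | zero => exact (Nat.mod_eq_of_lt (hw.1 i)).symm
  | succ k ih =>
    rw [Function.iterate_succ_apply']
    simp only [G]
    rw [ih, Nat.mod_add_mod]
    rfl

lemma G_iter2 (k i : ℕ) (w : ℕ → ℕ × Bool) : (G^[k] w i).2 = (w (i + k)).2 := by
  induction k generalizing i with
  | zero => rfl
  | succ k ih =>
    rw [Function.iterate_succ_apply']
    change (G^[k] w (i + 1)).2 = _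
    rw [ih]
    congr 2; ring

/-- distinct residues stay distinct -/
lemma distal {w w' : ℕ → ℕ × Bool} (hw : w ∈ Y) (hw' : w' ∈ Y) {K : ℕ}
    (h : (w K).1 ≠ (w' K).1) (k : ℕ) : (1 / 2 : ℝ) ^ (K + 1) < ld (G^[k] w) (G^[k] w') := by
  rw [← not_le, ld_le_iff]
  intro hcon
  have h1 := congrArg Prod.fst (hcon K (Nat.lt_succ_self K))
  rw [G_iter1 k K hw, G_iter1 k K hw'] at h1
  have h2 : (w K).1 ≡ (w' K).1 [MOD N K] := Nat.ModEq.add_right_cancel' k h1
  exact h (Nat.ModEq.eq_of_lt_of_lt h2 (hw.1 K) (hw'.1 K))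

/-- equal residues: the sequences are eventually equal or eventually complementary -/
lemma same {w w' : ℕ → ℕ × Bool} (hw : w ∈ Y) (hw' : w' ∈ Y) (h : ∀ K, (w K).1 = (w' K).1) :
    ∃ i₀, (∀ i ≥ i₀, (w i).2 = (w' i).2) ∨ (∀ i ≥ i₀, (w i).2 ≠ (w' i).2) := by
  have step : ∀ i, (∃ K, ¬ N K ∣ (w K).1 + i + 1) →
      xor (w i).2 (w' i).2 = xor (w (i + 1)).2 (w' (i + 1)).2 := by
    rintro i ⟨K, hK⟩
    have h1 := hw.2.2 i K hK
    have h2 := hw'.2.2 i K (by rw [← h K]; exact hK)
    rw [← h K, ← h1] at h2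
    generalize (w i).2 = a at *
    generalize (w (i + 1)).2 = b at *
    generalize (w' i).2 = c at *
    generalize (w' (i + 1)).2 = d at *
    revert h2
    cases a <;> cases b <;> cases c <;> cases d <;> decide
  obtain ⟨i₀, hi₀⟩ : ∃ i₀, ∀ i ≥ i₀, ∃ K, ¬ N K ∣ (w K).1 + i + 1 := by
    by_cases hex : ∃ j, ∀ K, N K ∣ (w K).1 + j + 1
    · obtain ⟨j, hj⟩ := hex
      refine ⟨j + 1, fun i hi => ⟨i, fun hd => ?_⟩⟩
      have h1 : N i ∣ ((w i).1 + i + 1) - ((w i).1 + j + 1) := Nat.dvd_sub hd (hj i)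
      have h2 := Nat.le_of_dvd (by omega) h1
      have h3 := N_gt i
      omega
    · push Not at hex
      exact ⟨0, fun i _ => hex i⟩
  have hconst : ∀ i ≥ i₀, xor (w i).2 (w' i).2 = xor (w i₀).2 (w' i₀).2 := by
    intro i hi
    induction i, hi using Nat.le_induction with
    | base => rfl
    | succ i hi ih => rw [← step i (hi₀ i hi), ih]
  refine ⟨i₀, ?_⟩
  cases hb : xor (w i₀).2 (w' i₀).2 with
  | false =>
    left
    intro i hi
    have := hconst i hi
    rw [hb] at this
    simpa using this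
  | true =>
    right
    intro i hi heq
    have := hconst i hi
    rw [hb, heq] at this
    simp at this

/-! ### The points of the scrambled set -/

/-- the point of the address `α` -/
def pt (α : ℕ → Bool) : ℕ → ℕ × Bool := fun k => (m α k, x α k)

lemma pt_mem (α : ℕ → Bool) : pt α ∈ Y :=
  ⟨fun k => m_lt α k, fun k => m_mod α (Nat.le_succ k), fun _ _ h => x_rule h⟩

lemma ld_pt {α β : ℕ → Bool} (k : ℕ) :
    ld (G^[k] (pt α)) (G^[k] (pt β)) ≤ (1 / 2) ^ 1 ↔ x α k = x β k := by
  rw [ld_le_iff]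
  constructor
  · intro h
    have := congrArg Prod.snd (h 0 one_pos)
    rw [G_iter2, G_iter2, zero_add] at this
    exact this
  · intro h i hi
    obtain rfl : i = 0 := by omega
    apply Prod.ext
    · rw [G_iter1 k 0 (pt_mem α), G_iter1 k 0 (pt_mem β)]
      change _ % 1 = _ % 1
      rw [Nat.mod_one, Nat.mod_one]
    · rw [G_iter2, G_iter2, zero_add]
      exact h

lemma ld_pt_one {α β : ℕ → Bool} {k : ℕ} (h : x α k ≠ x β k) :
    ld (G^[k] (pt α)) (G^[k] (pt β)) = 1 := by
  have hne : G^[k] (pt α) ≠ G^[k] (pt β) := by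
    intro he
    apply h
    rw [← ld_pt, he, ld_self]
    positivity
  obtain ⟨n, hn, -, -⟩ := ld_exists hne
  rcases Nat.eq_zero_or_pos n with h0 | h0
  · rw [hn, h0, pow_zero]
  · exfalso
    apply h
    rw [← ld_pt, hn]
    exact pow_le_pow_of_le_one (by norm_num) (by norm_num) h0

/-- agreement of the prescribed parities at infinitely many levels -/
lemma freq_eq (α β : ℕ → Bool) : ∀ a, ∃ K ≥ a, e α K = e β K := fun a =>
  ⟨2 * a, by omega, by unfold e; rw [if_neg (by omega), if_neg (by omega)]⟩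

lemma freq_ne {α β : ℕ → Bool} (h : α ≠ β) : ∀ a, ∃ K ≥ a, e α K ≠ e β K := by
  obtain ⟨j, hj⟩ := Function.ne_iff.1 h
  intro a
  refine ⟨2 * Nat.pair j a + 1, ?_, ?_⟩
  · have := Nat.right_le_pair j a
    omega
  · unfold e
    rw [if_pos (by omega), if_pos (by omega)]
    have : (2 * Nat.pair j a + 1) / 2 = Nat.pair j a := by omega
    rw [this, Nat.unpair_pair]
    exact hj

lemma exists_ne {α β : ℕ → Bool} (h : α ≠ β) : ∃ k, x α k ≠ x β k := by
  obtain ⟨K, hK, he⟩ := freq_ne h 1
  have h1 := ct_disagree he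
  by_contra hcon
  push Not at hcon
  have h2 : ct (fun i => x α i = x β i) (N K / 2) = N K / 2 := by
    classical
    unfold ct
    simp [hcon]
  rw [h2] at h1
  have h3 : 32 * N 0 ≤ N 1 := N_succ_ge 0
  have h4 := N_mono hK
  have h5 : N 0 = 1 := rfl
  omega

lemma freq_low {α β : ℕ → Bool} (h : α ≠ β) :
    ∃ᶠ n in atTop, fr (fun k => x α k = x β k) n ≤ 1 / 3 := by
  rw [frequently_atTop]
  intro a
  obtain ⟨K, hK, he⟩ := freq_ne h (a + 1)
  have h1 := ct_disagree he
  have h3 : 32 * N 0 ≤ N 1 := N_succ_ge 0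
  have h4 := N_mono (show 1 ≤ K by omega)
  have h5 : N 0 = 1 := rfl
  have h6 : 32 * N (K - 1) ≤ N K := by
    have := N_succ_ge (K - 1)
    rwa [Nat.sub_add_cancel (by omega)] at this
  have h7 := N_gt (K - 1)
  refine ⟨N K / 2 - 1, by omega, ?_⟩
  unfold fr
  have h8 : N K / 2 - 1 + 1 = N K / 2 := by omega
  rw [h8]
  have h9 : 3 * ct (fun i => x α i = x β i) (N K / 2) ≤ N K / 2 - 1 := by omega
  have h10 : (0 : ℝ) < ((N K / 2 - 1 : ℕ) : ℝ) := by
    have : 0 < N K / 2 - 1 := by omega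
    exact_mod_cast this
  rw [div_le_iff₀ h10]
  have h11 : (3 * ct (fun i => x α i = x β i) (N K / 2) : ℝ) ≤ ((N K / 2 - 1 : ℕ) : ℝ) := by
    exact_mod_cast h9
  linarith

lemma freq_high (α β : ℕ → Bool) :
    ∃ᶠ n in atTop, 1 / 2 ≤ fr (fun k => x α k = x β k) n := by
  rw [frequently_atTop]
  intro a
  obtain ⟨K, hK, he⟩ := freq_eq α β (a + 1)
  have h1 := ct_agree he
  have h6 : 32 * N (K - 1) ≤ N K := by
    have := N_succ_ge (K - 1)
    rwa [Nat.sub_add_cancel (by omega)] at this
  have h7 := N_gt (K - 1)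
  refine ⟨N K / 2 - 1, by omega, ?_⟩
  unfold fr
  have h8 : N K / 2 - 1 + 1 = N K / 2 := by omega
  rw [h8]
  have h2 : ct (fun i => x α i = x β i) (N K / 2) + ct (fun i => x α i ≠ x β i) (N K / 2) =
      N K / 2 := ct_not (fun i => x α i = x β i) (N K / 2)
  have h9 : N K / 2 - 1 ≤ 2 * ct (fun i => x α i = x β i) (N K / 2) := by omega
  have h10 : (0 : ℝ) < ((N K / 2 - 1 : ℕ) : ℝ) := by
    have : 0 < N K / 2 - 1 := by omega
    exact_mod_cast this
  rw [le_div_iff₀ h10]
  have h11 : ((N K / 2 - 1 : ℕ) : ℝ) ≤ (2 * ct (fun i => x α i = x β i) (N K / 2) : ℝ) := by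
    exact_mod_cast h9
  linarith

/-- There are a dendrite `X` and a continuous `f : X → X` with an uncountable DC3 set and without
Li-Yorke pairs. -/
theorem result : ∃ (X : Type) (_ : MetricSpace X) (f : X → X), IsDendrite X ∧ Continuous f ∧
    (∃ S : Set X, ¬ S.Countable ∧ ∀ x ∈ S, ∀ y ∈ S, x ≠ y → IsDC3Pair f x y) ∧
    (∀ x y : X, ¬ IsLYPair f x y) := by
  haveI : CompactSpace Y := isCompact_iff_compactSpace.1 Y_compact
  haveI : Nonempty Y := ⟨⟨pt fun _ => false, pt_mem _⟩⟩
  let F : Y → Y := fun z => ⟨G z.1, G_mem z.2⟩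
  have hF : ∀ y z, (um Y).l (F y) (F z) ≤ 2 * (um Y).l y z := by
    intro y z
    change ld (G y.1) (G z.1) ≤ 2 * ld y.1 z.1
    apply ld_map
    intro n h i hi
    simp only [G]
    rw [h (i + 1) (by omega), h i (by omega)]
  have hFk : ∀ (k : ℕ) (z : Y), (F^[k] z).1 = G^[k] z.1 := by
    intro k z
    induction k with
    | zero => rfl
    | succ k ih =>
      rw [Function.iterate_succ_apply', Function.iterate_succ_apply', ← ih]
  obtain ⟨X, hX, f, ι, o, hD, hfc, hdist, hdo, hfo, hfι, hd2, hall⟩ :=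
    exists_dendrite (um Y) F hF
  have hιk : ∀ (k : ℕ) (z : Y), f^[k] (ι z) = ι (F^[k] z) := by
    intro k z
    induction k with
    | zero => rfl
    | succ k ih => rw [Function.iterate_succ_apply', ih, hfι, Function.iterate_succ_apply']
  have hdk : ∀ (k : ℕ) (z z' : Y), dist (f^[k] (ι z)) (f^[k] (ι z')) =
      2 * ld (G^[k] z.1) (G^[k] z'.1) := by
    intro k z z'
    rw [hιk, hιk, hdist, ← hFk, ← hFk]
    rfl
  have hok : ∀ k : ℕ, f^[k] o = o := fun k => Function.iterate_fixed hfo k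
  have hbd : Bornology.IsBounded (univ : Set X) :=
    Metric.isBounded_iff.2 ⟨2, fun x _ y _ => hd2 x y⟩
  -- no Li-Yorke pair when the distance is eventually constant
  have econst : ∀ (x y : X) (c : ℝ) (k₀ : ℕ), (∀ k ≥ k₀, dist (f^[k] x) (f^[k] y) = c) →
      ¬ IsLYPair f x y := by
    rintro x y c k₀ hk₀ ⟨-, h1, h2⟩
    have ht : Tendsto (fun k : ℕ => dist (f^[k] x) (f^[k] y)) atTop (𝓝 c) := by
      apply tendsto_const_nhds.congr'
      filter_upwards [eventually_ge_atTop k₀] with k hk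
      exact (hk₀ k hk).symm
    rw [ht.liminf_eq] at h1
    rw [ht.limsup_eq, h1] at h2
    exact lt_irrefl _ h2
  refine ⟨X, hX, f, hD, hfc, ?_, ?_⟩
  · let p : (ℕ → Bool) → X := fun α => ι ⟨pt α, pt_mem α⟩
    have hpk : ∀ α β k, dist (f^[k] (p α)) (f^[k] (p β)) =
        2 * ld (G^[k] (pt α)) (G^[k] (pt β)) := fun α β k => hdk k _ _
    have hne2 : ∀ {α β : ℕ → Bool}, α ≠ β → ∃ k, dist (f^[k] (p α)) (f^[k] (p β)) = 2 := by
      intro α β h
      obtain ⟨k, hk⟩ := exists_ne h
      exact ⟨k, by rw [hpk, ld_pt_one hk, mul_one]⟩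
    have hp : Function.Injective p := by
      intro α β h
      by_contra hne
      obtain ⟨k, hk⟩ := hne2 hne
      rw [h, dist_self] at hk
      norm_num at hk
    refine ⟨range p, ?_, ?_⟩
    · intro hc
      have h1 : Countable (range p) := hc.to_subtype
      have h2 : Countable (ℕ → Bool) :=
        (Function.Injective.countable (f := fun α => (⟨p α, α, rfl⟩ : range p))
          fun α β h => hp (congrArg Subtype.val h))
      obtain ⟨e, he⟩ := exists_surjective_nat (ℕ → Bool)
      obtain ⟨n, hn⟩ := he fun n => !(e n n)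
      have := congrFun hn n
      simp at this
    · rintro _ ⟨α, rfl⟩ _ ⟨β, rfl⟩ hne
      have hαβ : α ≠ β := fun h => hne (by rw [h])
      refine ⟨hne, 1, 2, by norm_num, by norm_num, ?_, ?_⟩
      · obtain ⟨k, hk⟩ := hne2 hαβ
        rw [← hk]
        exact Metric.dist_le_diam_of_mem hbd (mem_univ _) (mem_univ _)
      · intro δ h1 h2
        have hA : (fun k => dist (f^[k] (p α)) (f^[k] (p β)) < δ) = fun k => x α k = x β k := by
          funext k
          apply propext
          rw [hpk, ← ld_pt]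
          constructor
          · intro h
            by_contra hcon
            have : x α k ≠ x β k := fun he => hcon (ld_pt k |>.2 he)
            rw [ld_pt_one this] at h
            linarith
          · intro h
            linarith
        have e1 : Phi f (p α) (p β) δ ≤ 1 / 3 := by
          change liminf (fr fun k => dist (f^[k] (p α)) (f^[k] (p β)) < δ) atTop ≤ 1 / 3
          rw [hA]
          exact liminf_le (freq_low hαβ)
        have e2 : 1 / 2 ≤ PhiStar f (p α) (p β) δ := by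
          change 1 / 2 ≤ limsup (fr fun k => dist (f^[k] (p α)) (f^[k] (p β)) < δ) atTop
          rw [hA]
          exact le_limsup (freq_high α β)
        linarith
  · intro x y
    rcases hall x with ⟨z, rfl⟩ | ⟨a, ha⟩
    · rcases hall y with ⟨z', rfl⟩ | ⟨b, hb⟩
      · by_cases hres : ∀ K, (z.1 K).1 = (z'.1 K).1
        · obtain ⟨i₀, h | h⟩ := same z.2 z'.2 hres
          · refine econst _ _ 0 i₀ fun k hk => ?_
            rw [hdk]
            have : G^[k] z.1 = G^[k] z'.1 := by
              funext i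
              apply Prod.ext
              · rw [G_iter1 k i z.2, G_iter1 k i z'.2, hres]
              · rw [G_iter2, G_iter2, h _ (by omega)]
            rw [this, ld_self, mul_zero]
          · refine econst _ _ 2 i₀ fun k hk => ?_
            rw [hdk]
            have hne : G^[k] z.1 ≠ G^[k] z'.1 := by
              intro he
              have := congrArg Prod.snd (congrFun he 0)
              rw [G_iter2, G_iter2, zero_add] at this
              exact h k hk this
            obtain ⟨n, hn, -, hn2⟩ := ld_exists hne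
            have : n = 0 := by
              by_contra h0
              have := congrArg Prod.snd (hn2 0 (by omega))
              rw [G_iter2, G_iter2, zero_add] at this
              exact h k hk this
            rw [hn, this, pow_zero, mul_one]
        · push Not at hres
          obtain ⟨K, hK⟩ := hres
          rintro ⟨-, h1, -⟩
          have h2 : 2 * (1 / 2 : ℝ) ^ (K + 1) ≤
              liminf (fun k : ℕ => dist (f^[k] (ι z)) (f^[k] (ι z'))) atTop := by
            refine le_liminf_of_le ?_ (Eventually.of_forall fun k => ?_)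
            · exact (isBoundedUnder_of ⟨2, fun k => hd2 _ _⟩).isCoboundedUnder_ge
            · rw [hdk]
              have := distal z.2 z'.2 hK k
              linarith
          rw [h1] at h2
          have : (0 : ℝ) < 2 * (1 / 2) ^ (K + 1) := by positivity
          linarith
      · refine econst _ _ 1 b fun k hk => ?_
        obtain ⟨d, rfl⟩ : ∃ d, k = d + b := ⟨k - b, by omega⟩
        rw [Function.iterate_add_apply f d b y, hb, hok, hιk, hdo]
    · rcases hall y with ⟨z', rfl⟩ | ⟨b, hb⟩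
      · refine econst _ _ 1 a fun k hk => ?_
        obtain ⟨d, rfl⟩ : ∃ d, k = d + a := ⟨k - a, by omega⟩
        rw [Function.iterate_add_apply f d a x, ha, hok, hιk, dist_comm, hdo]
      · refine econst _ _ 0 (a + b) fun k hk => ?_
        obtain ⟨d, rfl⟩ : ∃ d, k = d + (a + b) := ⟨k - (a + b), by omega⟩
        have e1 : f^[d + (a + b)] x = o := by
          rw [show d + (a + b) = (d + b) + a by ring, Function.iterate_add_apply, ha, hok]
        have e2 : f^[d + (a + b)] y = o := by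
          rw [show d + (a + b) = (d + a) + b by ring, Function.iterate_add_apply, hb, hok]
        rw [e1, e2, dist_self]

end Pool.Agent.Results.MP_5bdc9f_an.NoLYPair
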